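import Pool.Agent.Helper17.RS.Sheet

/-! # Row DETS (MP_798d7d_nt, ranks six and seven) -/

set_option autoImplicit false

namespace Pool.Helper17.RS

open Polynomial

theorem dets_cancel (D x : ℤ) (m : ℕ) (hD : ¬ (13 : ℤ) ∣ D) (h : (13 : ℤ) ^ m ∣ D * x) :
    (13 : ℤ) ^ m ∣ x := by
  have hp : Prime (13 : ℤ) := by
    have h13 : Nat.Prime 13 := by norm_num
    exact_mod_cast Nat.prime_iff_prime_int.1 h13
  have hc : IsCoprime ((13 : ℤ) ^ m) D := by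
    apply IsCoprime.pow_left
    exact (Prime.coprime_iff_not_dvd hp).2 hD
  exact hc.dvd_of_dvd_mul_left h

theorem dets_map_ff {R S : Type*} [CommRing R] [CommRing S] (φ : R →+* S) (j : Fin 20)
    (a b c : R) : φ (ff j a b c) = ff j (φ a) (φ b) (φ c) := by
  unfold ff
  rw [map_sum]
  refine Finset.sum_congr rfl fun i _ => ?_
  simp only [map_mul, map_pow, map_sub, map_intCast, map_ofNat]

theorem dets_dvd_ff (n : ℤ) (j : Fin 20) (a b c a' b' : ℤ) (ha : n ∣ a - a') (hb : n ∣ b - b') :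
    n ∣ ff j a b c - ff j a' b' c := by
  have h1 : Ideal.Quotient.mk (Ideal.span {n}) a = Ideal.Quotient.mk (Ideal.span {n}) a' := by
    rw [Ideal.Quotient.eq, Ideal.mem_span_singleton]; exact ha
  have h2 : Ideal.Quotient.mk (Ideal.span {n}) b = Ideal.Quotient.mk (Ideal.span {n}) b' := by
    rw [Ideal.Quotient.eq, Ideal.mem_span_singleton]; exact hb
  rw [← Ideal.mem_span_singleton, ← Ideal.Quotient.eq, dets_map_ff, dets_map_ff, h1, h2]

theorem dets_dvd_det (n : ℤ) (M M' : Matrix (Fin 20) (Fin 20) ℤ)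
    (h : ∀ i j, n ∣ M i j - M' i j) : n ∣ M.det - M'.det := by
  rw [← Ideal.mem_span_singleton, ← Ideal.Quotient.eq, RingHom.map_det, RingHom.map_det]
  congr 1
  ext i j
  simp only [RingHom.mapMatrix_apply, Matrix.map_apply]
  rw [Ideal.Quotient.eq, Ideal.mem_span_singleton]
  exact h i j

theorem dets_eval_ff (U V : ℤ[X]) (j : Fin 20) (t : ℤ) :
    (ff j U V (11 + X)).eval t = ff j (U.eval t) (V.eval t) (11 + t) := by
  have h := dets_map_ff (Polynomial.evalRingHom t) j U V (11 + X)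
  simpa using h

theorem dets_pa (t : ℤ) (ht : (13 : ℤ) ∣ t) : (13 : ℤ) ∣ pa.eval t - 4 := by
  unfold pa
  rw [Polynomial.eval_finsetSum, Fin.sum_univ_succ]
  have h0 : (C (da 0) * X ^ ((0 : Fin 20) : ℕ) : ℤ[X]).eval t = 4 := by
    simp [da]
  rw [h0, add_sub_cancel_left]
  refine Finset.dvd_sum fun i _ => ?_
  rw [Polynomial.eval_mul, Polynomial.eval_pow, Polynomial.eval_X, Polynomial.eval_C]
  refine Dvd.dvd.mul_left ?_ _
  exact dvd_pow ht (by simp)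

theorem dets_pb (t : ℤ) (ht : (13 : ℤ) ∣ t) : (13 : ℤ) ∣ pb.eval t - 7 := by
  unfold pb
  rw [Polynomial.eval_finsetSum, Fin.sum_univ_succ]
  have h0 : (C (db 0) * X ^ ((0 : Fin 20) : ℕ) : ℤ[X]).eval t = 7 := by
    simp [db]
  rw [h0, add_sub_cancel_left]
  refine Finset.dvd_sum fun i _ => ?_
  rw [Polynomial.eval_mul, Polynomial.eval_pow, Polynomial.eval_X, Polynomial.eval_C]
  refine Dvd.dvd.mul_left ?_ _
  exact dvd_pow ht (by simp)

theorem dets_eq20 (P Q : ℤ[X]) (h : Eq20 P Q) (t : ℤ) (ht : (13 : ℤ) ∣ t) :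
    (13 : ℤ) ∣ P.eval t - Q.eval t := by
  obtain ⟨g, k, hgk⟩ := h
  rw [← Polynomial.eval_sub, hgk]
  simp only [Polynomial.eval_add, Polynomial.eval_mul, Polynomial.eval_pow, Polynomial.eval_X,
    Polynomial.eval_ofNat]
  refine dvd_add (Dvd.intro _ rfl) (Dvd.dvd.mul_right (dvd_pow ht (by norm_num)) _)

/-- the congruence of the determinant with the Vandermonde determinant, for every `m` -/
theorem dets_main (hL : ST_LIFT) (hI : ST_INJS) (hE : ST_EXP) (hD : ST_DETC)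
    (Q : Fin 20 → Fin 3 → ℤ)
    (h1 : ∀ i, (13 : ℤ) ∣ Q i 0 - 4 ∧ (13 : ℤ) ∣ Q i 1 - 7 ∧ (13 : ℤ) ∣ Q i 2 - 11)
    (h2 : ∀ i j, FA (Q i 0) (Q i 1) (Q i 2) = FA (Q j 0) (Q j 1) (Q j 2) ∧
      FB (Q i 0) (Q i 1) (Q i 2) = FB (Q j 0) (Q j 1) (Q j 2)) (m : ℕ) (hm : 1 ≤ m) :
    ∃ W : ℤ, ¬ (13 : ℤ) ∣ W ∧ (13 : ℤ) ^ m ∣ (MQ Q).det -
      W * ∏ i : Fin 20, ∏ j ∈ Finset.Ioi i, (Q j 2 - Q i 2) := by
  have hτ : ∀ i, (13 : ℤ) ∣ (fun i => Q i 2 - 11) i := fun i => (h1 i).2.2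
  have hmod : ∀ x y : ℤ, (13 : ℤ) ∣ x - y →
      Ideal.Quotient.mk (Ideal.span {(13 : ℤ)}) x = Ideal.Quotient.mk (Ideal.span {(13 : ℤ)}) y := by
    intro x y h
    rw [Ideal.Quotient.eq, Ideal.mem_span_singleton]; exact h
  have hα : (13 : ℤ) ∣ FA (Q 0 0) (Q 0 1) (Q 0 2) - FA (4 : ℤ) 7 11 := by
    rw [← Ideal.mem_span_singleton, ← Ideal.Quotient.eq]
    unfold FA
    simp only [map_mul, map_pow, map_sub, map_add]
    rw [hmod _ _ (h1 0).1, hmod _ _ (h1 0).2.1, hmod _ _ (h1 0).2.2]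
  have hβ : (13 : ℤ) ∣ FB (Q 0 0) (Q 0 1) (Q 0 2) - FB (4 : ℤ) 7 11 := by
    rw [← Ideal.mem_span_singleton, ← Ideal.Quotient.eq]
    unfold FB
    simp only [map_mul, map_pow, map_sub, map_add]
    rw [hmod _ _ (h1 0).1, hmod _ _ (h1 0).2.1, hmod _ _ (h1 0).2.2]
  obtain ⟨U, V, hU, hV, hUV⟩ := hL (fun i => Q i 2 - 11) hτ _ _ hα hβ m hm
  obtain ⟨W, hW, hdet⟩ := hD 20 (fun i => Q i 2 - 11) (fun j => ff j U V (11 + X)) hτ
    (fun j => hE U V hU hV j)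
  refine ⟨W, hW, ?_⟩
  have hV' : ∏ i : Fin 20, ∏ j ∈ Finset.Ioi i, (Q j 2 - Q i 2) =
      ∏ i : Fin 20, ∏ j ∈ Finset.Ioi i, ((Q j 2 - 11) - (Q i 2 - 11)) := by
    refine Finset.prod_congr rfl fun i _ => Finset.prod_congr rfl fun j _ => by ring
  rw [hV', ← hdet]
  refine dets_dvd_det _ _ _ fun i j => ?_
  simp only [MQ, Matrix.of_apply]
  rw [dets_eval_ff]
  have ec : 11 + (Q i 2 - 11) = Q i 2 := by ring
  rw [ec]
  obtain ⟨hA, hB⟩ := hUV i
  simp only [ec] at hA hB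
  rw [← (h2 i 0).1] at hA
  rw [← (h2 i 0).2] at hB
  have hU4 : (13 : ℤ) ∣ U.eval (Q i 2 - 11) - 4 := by
    have := dvd_add (dets_eq20 U pa hU _ (hτ i)) (dets_pa _ (hτ i))
    simpa using this
  have hV7 : (13 : ℤ) ∣ V.eval (Q i 2 - 11) - 7 := by
    have := dvd_add (dets_eq20 V pb hV _ (hτ i)) (dets_pb _ (hτ i))
    simpa using this
  obtain ⟨ha, hb⟩ := hI m _ _ _ _ _ hU4 hV7 (h1 i).1 (h1 i).2.1 (h1 i).2.2 hA hB
  rw [dvd_sub_comm] at ha hb
  exact dets_dvd_ff _ j _ _ _ _ _ ha hb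

theorem dets_card : ∑ i : Fin 20, (Finset.Ioi i).card = 190 := by
  simp only [Fin.card_Ioi]
  decide

theorem st_DETS (hL : ST_LIFT) (hI : ST_INJS) (hE : ST_EXP) (hD : ST_DETC) : ST_DETS := by
  intro Q h1 h2 hinj
  set P : ℤ := ∏ i : Fin 20, ∏ j ∈ Finset.Ioi i, (Q j 2 - Q i 2) with hP
  have hP0 : P ≠ 0 := by
    rw [hP, Finset.prod_ne_zero_iff]
    intro i _
    rw [Finset.prod_ne_zero_iff]
    intro j hj
    rw [Finset.mem_Ioi] at hj
    intro h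
    exact (ne_of_gt hj) (hinj (sub_eq_zero.1 h))
  refine ⟨?_, ?_⟩
  · intro h0
    apply hP0
    obtain ⟨W, hW, hd⟩ := dets_main hL hI hE hD Q h1 h2 (P.natAbs + 1) (by omega)
    rw [h0, zero_sub, dvd_neg] at hd
    have hd2 := dets_cancel W P _ hW hd
    apply Int.eq_zero_of_abs_lt_dvd hd2
    have h13 : P.natAbs < 13 ^ (P.natAbs + 1) :=
      lt_trans (Nat.lt_pow_self (by norm_num : 1 < 13))
        (Nat.pow_lt_pow_right (by norm_num) (Nat.lt_succ_self _))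
    have h14 : (P.natAbs : ℤ) < ((13 ^ (P.natAbs + 1) : ℕ) : ℤ) := Int.ofNat_lt.2 h13
    rw [Int.abs_eq_natAbs]
    rw [Nat.cast_pow] at h14
    exact h14
  · intro k hk
    rcases Nat.eq_zero_or_pos k with rfl | hk0
    · simp
    obtain ⟨W, hW, hd⟩ := dets_main hL hI hE hD Q h1 h2 (190 * k) (by omega)
    have hdP : (13 : ℤ) ^ (190 * k) ∣ P := by
      have e1 : (13 : ℤ) ^ (190 * k) = ∏ i : Fin 20, ∏ j ∈ Finset.Ioi i, (13 : ℤ) ^ k := by
        simp only [Finset.prod_const]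
        rw [Finset.prod_pow_eq_pow_sum, dets_card, ← pow_mul, mul_comm]
      rw [e1, hP]
      exact Finset.prod_dvd_prod_of_dvd _ _ fun i _ =>
        Finset.prod_dvd_prod_of_dvd _ _ fun j _ => hk j i
    have h5 := dvd_add hd (Dvd.dvd.mul_left hdP W)
    rw [← hP, sub_add_cancel] at h5
    exact h5

end Pool.Helper17.RS
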