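import Pool.Agent.Helper17.RS.Sheet

/-! # Row INJS (MP_798d7d_nt, ranks six and seven) -/

set_option autoImplicit false

namespace Pool.Helper17.RS

theorem injs_cancel (n D x : ℤ) (m : ℕ) (hD : ¬ (13 : ℤ) ∣ D) (h : (13 : ℤ) ^ m ∣ D * x) :
    (13 : ℤ) ^ m ∣ x := by
  have hp : Prime (13 : ℤ) := by
    have h13 : Nat.Prime 13 := by norm_num
    exact_mod_cast Nat.prime_iff_prime_int.1 h13
  have hc : IsCoprime ((13 : ℤ) ^ m) D := by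
    apply IsCoprime.pow_left
    exact (Prime.coprime_iff_not_dvd hp).2 hD
  exact hc.dvd_of_dvd_mul_left h

theorem st_INJS : ST_INJS := by
  intro m a b a' b' c ha hb ha' hb' hc hA hB
  set α₁ : ℤ := (a + a') * (541 * (a ^ 2 + a' ^ 2) - 493 * (b ^ 2 + c ^ 2)) with h1
  set α₂ : ℤ := (b + b') * (541 * (b ^ 2 + b' ^ 2) - 493 * (a' ^ 2 + c ^ 2)) with h2
  set β₁ : ℤ := (a + a') * (22678 * (a ^ 4 + a ^ 2 * a' ^ 2 + a' ^ 4) -
    12291 * ((a ^ 2 + a' ^ 2) * (b ^ 2 + c ^ 2) + b ^ 4 + c ^ 4) + 2256 * b ^ 2 * c ^ 2) with h3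
  set β₂ : ℤ := (b + b') * (22678 * (b ^ 4 + b ^ 2 * b' ^ 2 + b' ^ 4) -
    12291 * ((b ^ 2 + b' ^ 2) * (a' ^ 2 + c ^ 2) + a' ^ 4 + c ^ 4) + 2256 * a' ^ 2 * c ^ 2) with h4
  have eA : FA a b c - FA a' b' c = (a - a') * α₁ + (b - b') * α₂ := by
    rw [h1, h2]; unfold FA; ring
  have eB : FB a b c - FB a' b' c = (a - a') * β₁ + (b - b') * β₂ := by
    rw [h3, h4]; unfold FB; ring
  have hD : ¬ (13 : ℤ) ∣ (α₁ * β₂ - α₂ * β₁) := by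
    intro h
    have h13 := (ZMod.intCast_zmod_eq_zero_iff_dvd (α₁ * β₂ - α₂ * β₁) 13).2 (by exact_mod_cast h)
    have ea : ((a : ℤ) : ZMod 13) = ((4 : ℤ) : ZMod 13) := by
      rw [← sub_eq_zero, ← Int.cast_sub]
      exact (ZMod.intCast_zmod_eq_zero_iff_dvd _ 13).2 (by exact_mod_cast ha)
    have eb : ((b : ℤ) : ZMod 13) = ((7 : ℤ) : ZMod 13) := by
      rw [← sub_eq_zero, ← Int.cast_sub]
      exact (ZMod.intCast_zmod_eq_zero_iff_dvd _ 13).2 (by exact_mod_cast hb)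
    have ea' : ((a' : ℤ) : ZMod 13) = ((4 : ℤ) : ZMod 13) := by
      rw [← sub_eq_zero, ← Int.cast_sub]
      exact (ZMod.intCast_zmod_eq_zero_iff_dvd _ 13).2 (by exact_mod_cast ha')
    have eb' : ((b' : ℤ) : ZMod 13) = ((7 : ℤ) : ZMod 13) := by
      rw [← sub_eq_zero, ← Int.cast_sub]
      exact (ZMod.intCast_zmod_eq_zero_iff_dvd _ 13).2 (by exact_mod_cast hb')
    have ec : ((c : ℤ) : ZMod 13) = ((11 : ℤ) : ZMod 13) := by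
      rw [← sub_eq_zero, ← Int.cast_sub]
      exact (ZMod.intCast_zmod_eq_zero_iff_dvd _ 13).2 (by exact_mod_cast hc)
    have key : (((α₁ * β₂ - α₂ * β₁ : ℤ)) : ZMod 13) =
        ((((4 + 4) * (541 * (4 ^ 2 + 4 ^ 2) - 493 * (7 ^ 2 + 11 ^ 2))) *
          ((7 + 7) * (22678 * (7 ^ 4 + 7 ^ 2 * 7 ^ 2 + 7 ^ 4) -
    12291 * ((7 ^ 2 + 7 ^ 2) * (4 ^ 2 + 11 ^ 2) + 4 ^ 4 + 11 ^ 4) + 2256 * 4 ^ 2 * 11 ^ 2)) -
          ((7 + 7) * (541 * (7 ^ 2 + 7 ^ 2) - 493 * (4 ^ 2 + 11 ^ 2))) *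
          ((4 + 4) * (22678 * (4 ^ 4 + 4 ^ 2 * 4 ^ 2 + 4 ^ 4) -
    12291 * ((4 ^ 2 + 4 ^ 2) * (7 ^ 2 + 11 ^ 2) + 7 ^ 4 + 11 ^ 4) + 2256 * 7 ^ 2 * 11 ^ 2)) : ℤ) :
            ZMod 13) := by
      rw [h1, h2, h3, h4]
      push_cast at ea eb ea' eb' ec ⊢
      rw [ea, eb, ea', eb', ec]
      norm_num
    rw [key] at h13
    have h14 := (ZMod.intCast_zmod_eq_zero_iff_dvd _ 13).1 h13
    revert h14
    norm_num
  constructor
  · apply injs_cancel 0 (α₁ * β₂ - α₂ * β₁) _ m hD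
    have : (α₁ * β₂ - α₂ * β₁) * (a - a') =
        β₂ * (FA a b c - FA a' b' c) - α₂ * (FB a b c - FB a' b' c) := by
      rw [eA, eB]; ring
    rw [this]
    exact dvd_sub (Dvd.dvd.mul_left hA _) (Dvd.dvd.mul_left hB _)
  · apply injs_cancel 0 (α₁ * β₂ - α₂ * β₁) _ m hD
    have : (α₁ * β₂ - α₂ * β₁) * (b - b') =
        α₁ * (FB a b c - FB a' b' c) - β₁ * (FA a b c - FA a' b' c) := by
      rw [eA, eB]; ring
    rw [this]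
    exact dvd_sub (Dvd.dvd.mul_left hB _) (Dvd.dvd.mul_left hA _)

end Pool.Helper17.RS
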